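import Pool.Agent.H80.LD.Targets
import Pool.Agent.H68.DPC.INV

/-!
Row RPM: reflection positivity of the limit, in all directions.
-/

set_option autoImplicit false

open MeasureTheory SchwartzMap Filter Topology
open scoped ENNReal ContDiff InnerProductSpace

namespace Pool.Agent.H47.LD

open Pool.Agent.H80.LD
open Pool.Agent.H43.DPC (V S SD moment trans rot)
open Pool.Agent.H43.DPCS (RotInv)

variable {d : ℕ}

theorem ml_ofFn (μ : Measure (SD d)) {n : ℕ} (f : Fin n → S d) :
    ml μ (List.ofFn f) = moment μ f := by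
  unfold ml moment
  refine integral_congr_ae (ae_of_all _ fun T => ?_)
  change ((List.ofFn f).map (fun f => T f)).prod = ∏ i, T (f i)
  rw [List.map_ofFn, List.prod_ofFn]
  rfl

theorem ml_rot (μ : Measure (SD d)) (hR : RotInv μ) (R : V d ≃ₗᵢ[ℝ] V d) (l : List (S d)) :
    ml μ (l.map (rot R)) = ml μ l := by
  have h1 : l = List.ofFn l.get := (List.ofFn_get l).symm
  rw [h1, List.map_ofFn, ml_ofFn, ml_ofFn]
  exact Pool.Agent.H43.DPC.INV.moment_rot d μ (Pool.Agent.H43.DPCS.rotInv_of μ hR) _ R _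

theorem Re_apply (e : V d) (he : ‖e‖ = 1) (x : V d) : Re e x = x - (2 * ⟪e, x⟫_ℝ) • e := by
  unfold Re
  rw [Submodule.reflection_orthogonal_apply, Submodule.reflection_singleton_apply, he]
  simp only [RCLike.ofReal_real_eq_id, id_eq, one_pow, div_one, neg_sub, ← smul_assoc, nsmul_eq_mul,
    Nat.cast_ofNat]

theorem rpos_limit (hRPF : T_RPF) (hLMO : T_LMO) (e : V d) (A : ℕ → Sys d e)
    (μ : Measure (SD d)) [IsProbabilityMeasure μ] (hA : Lim A μ) : RPos μ e := by
  intro m c F hF
  have h1 := (hLMO d e A μ hA).2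
  have h2 : Tendsto (fun k => ∑ j, ∑ l, c j * c l * mf (A k) ((F j).map (rot (Re e)) ++ F l))
      atTop (𝓝 (∑ j, ∑ l, c j * c l * ml μ ((F j).map (rot (Re e)) ++ F l))) :=
    tendsto_finsetSum _ fun j _ => tendsto_finsetSum _ fun l _ => (h1 _).const_mul _
  exact ge_of_tendsto' h2 fun k => hRPF d e (A k) m c F hF

theorem pf_RPM (hRPF : T_RPF) (hLMO : T_LMO) : T_RPM := by
  intro d e A μ _ he hA hR e' he'
  have h0 := rpos_limit hRPF hLMO e A μ hA
  intro m c F hF
  set R : V d ≃ₗᵢ[ℝ] V d := (Submodule.span ℝ {e - e'})ᗮ.reflection with hRdef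
  have hRe : R e = e' := Submodule.reflection_sub (he.trans he'.symm)
  have hcomm : ∀ x, Re e' (R x) = R (Re e x) := by
    intro x
    rw [Re_apply e' he', Re_apply e he, map_sub, map_smul, hRe]
    have h3 : ⟪e', R x⟫_ℝ = ⟪e, x⟫_ℝ := by
      rw [← hRe]
      exact R.inner_map_map e x
    rw [h3]
  have h1 := h0 m c (fun j => (F j).map (rot R)) (by
    intro j f hf x hx
    obtain ⟨g, hg, rfl⟩ := List.mem_map.mp hf
    have h4 : g (R x) ≠ 0 := hx
    have h5 := hF j g hg (R x) h4
    rw [← hRe] at h5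
    rwa [R.inner_map_map] at h5)
  refine h1.trans (le_of_eq ?_)
  refine Finset.sum_congr rfl fun j _ => Finset.sum_congr rfl fun l _ => ?_
  have h6 : ((F j).map (rot (Re e')) ++ F l).map (rot R) =
      ((F j).map (rot R)).map (rot (Re e)) ++ (F l).map (rot R) := by
    rw [List.map_append, List.map_map, List.map_map]
    refine congrArg (· ++ (F l).map (rot R)) (List.map_congr_left fun f _ => ?_)
    ext x
    change f (Re e' (R x)) = f (R (Re e x))
    rw [hcomm]
  rw [← ml_rot μ hR R ((F j).map (rot (Re e')) ++ F l), h6]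

end Pool.Agent.H47.LD
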