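import Pool.Agent.H80.LD.Targets

/-!
Row POL: polarisation.
-/

set_option autoImplicit false

open Finset

namespace Pool.Agent.H47.LD

open Pool.Agent.H80.LD

/-- the sign -/
def sn (b : Bool) : ℝ := if b then (1 : ℝ) else -1

theorem sn_mul_self (b : Bool) : sn b * sn b = 1 := by
  cases b <;> simp [sn]

theorem sn_not (b : Bool) : sn (!b) = - sn b := by
  cases b <;> simp [sn]

/-- change of one sign -/
def flp {n : ℕ} (i : Fin n) (ε : Fin n → Bool) : Fin n → Bool := fun j => if j = i then !ε j else ε j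

theorem flp_flp {n : ℕ} (i : Fin n) : Function.Involutive (flp i) := by
  intro ε
  funext j
  unfold flp
  by_cases h : j = i
  · simp [h]
  · simp [h]

theorem prod_flp {n : ℕ} (i : Fin n) (ε : Fin n → Bool) :
    ∏ j, sn (flp i ε j) = - ∏ j, sn (ε j) := by
  rw [← Finset.mul_prod_erase univ (fun j => sn (flp i ε j)) (Finset.mem_univ i),
    ← Finset.mul_prod_erase univ (fun j => sn (ε j)) (Finset.mem_univ i), ← neg_mul]
  have h1 : sn (flp i ε i) = - sn (ε i) := by
    unfold flp
    rw [if_pos rfl, sn_not]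
  rw [h1]
  refine congrArg _ (Finset.prod_congr rfl fun j hj => ?_)
  unfold flp
  rw [if_neg (Finset.ne_of_mem_erase hj)]

theorem pf_POL : T_POL := by
  intro n x
  change (2 ^ n * (n.factorial : ℝ)) * ∏ i, x i =
    ∑ ε : Fin n → Bool, (∏ i, sn (ε i)) * (∑ i, sn (ε i) * x i) ^ n
  have h1 : ∀ ε : Fin n → Bool, (∏ i, sn (ε i)) * (∑ i, sn (ε i) * x i) ^ n =
      ∑ s : Fin n → Fin n, (∏ i, sn (ε i)) * ∏ k, (sn (ε (s k)) * x (s k)) := by
    intro ε
    rw [Fintype.sum_pow, Finset.mul_sum]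
  rw [Finset.sum_congr rfl fun ε _ => h1 ε, Finset.sum_comm]
  have h2 : ∑ σ : Equiv.Perm (Fin n), (2 ^ n : ℝ) * ∏ i, x i =
      ∑ s : Fin n → Fin n, ∑ ε : Fin n → Bool,
        (∏ i, sn (ε i)) * ∏ k, (sn (ε (s k)) * x (s k)) := by
    refine Fintype.sum_of_injective (fun σ : Equiv.Perm (Fin n) => (σ : Fin n → Fin n))
      Equiv.coe_fn_injective _ _ ?_ ?_
    · intro s hs
      have h3 : ¬ Function.Surjective s := fun hsur =>
        hs ⟨Equiv.ofBijective s ⟨Finite.injective_iff_surjective.mpr hsur, hsur⟩, rfl⟩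
      have h4 : ∃ i0, ∀ k, s k ≠ i0 := by
        by_contra hcon
        push Not at hcon
        exact h3 hcon
      obtain ⟨i0, hi0⟩ := h4
      have h5 : ∑ ε : Fin n → Bool, (∏ i, sn (ε i)) * ∏ k, (sn (ε (s k)) * x (s k)) =
          ∑ ε : Fin n → Bool, -((∏ i, sn (ε i)) * ∏ k, (sn (ε (s k)) * x (s k))) := by
        refine Fintype.sum_equiv (flp_flp i0).toPerm _ _ fun ε => ?_
        change _ = -((∏ i, sn (flp i0 ε i)) * ∏ k, (sn (flp i0 ε (s k)) * x (s k)))
        rw [prod_flp, neg_mul, neg_neg]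
        refine congrArg _ (Finset.prod_congr rfl fun k _ => ?_)
        unfold flp
        rw [if_neg (hi0 k)]
      rw [Finset.sum_neg_distrib] at h5
      linarith
    · intro σ
      have h6 : ∀ ε : Fin n → Bool, (∏ i, sn (ε i)) * ∏ k, (sn (ε (σ k)) * x (σ k)) =
          ∏ i, x i := by
        intro ε
        rw [Equiv.prod_comp σ (fun i => sn (ε i) * x i), ← Finset.prod_mul_distrib]
        refine Finset.prod_congr rfl fun i _ => ?_
        rw [← mul_assoc, sn_mul_self, one_mul]
      rw [Finset.sum_congr rfl fun ε _ => h6 ε, Finset.sum_const, nsmul_eq_mul,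
        Finset.card_univ, Fintype.card_pi_const, Fintype.card_bool]
      push_cast
      rfl
  rw [← h2, Finset.sum_const, nsmul_eq_mul, Finset.card_univ, Fintype.card_perm,
    Fintype.card_fin]
  ring

end Pool.Agent.H47.LD
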