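import Pool.Agent.H80.LD.Targets

/-!
Row PRB: properties of the sum over the pairings.
-/

set_option autoImplicit false

open Finset

namespace Pool.Agent.H47.LD

open Pool.Agent.H80.LD

theorem pair_empty {n : ℕ} (C : Fin n → Fin n → ℝ) : pair C ∅ = 1 := by
  rw [pair, dif_neg Finset.not_nonempty_empty]

theorem pair_eq {n : ℕ} (C : Fin n → Fin n → ℝ) (T : Finset (Fin n)) (h : T.Nonempty) :
    pair C T = ∑ j ∈ T.erase (T.min' h),
      C (T.min' h) j * pair C ((T.erase (T.min' h)).erase j) := by
  rw [pair, dif_pos h]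
  exact Finset.sum_attach (T.erase (T.min' h))
    (fun j => C (T.min' h) j * pair C ((T.erase (T.min' h)).erase j))

theorem pair_ind {n : ℕ} (P : Finset (Fin n) → Prop) (h0 : P ∅)
    (hs : ∀ (T : Finset (Fin n)) (h : T.Nonempty),
      (∀ j ∈ T.erase (T.min' h), P ((T.erase (T.min' h)).erase j)) → P T) :
    ∀ T, P T := by
  intro T
  induction T using Finset.strongInduction with
  | H T ih =>
    rcases T.eq_empty_or_nonempty with h | h
    · rw [h]
      exact h0
    · refine hs T h fun j hj => ih _ ?_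
      exact (Finset.erase_ssubset hj).trans (Finset.erase_ssubset (T.min'_mem h))

theorem sub_erase {n : ℕ} {T : Finset (Fin n)} {m j : Fin n} :
    (T.erase m).erase j ⊆ T :=
  (Finset.erase_subset _ _).trans (Finset.erase_subset _ _)

theorem pf_mono : ∀ (n : ℕ) (C C' : Fin n → Fin n → ℝ) (T : Finset (Fin n)),
    (∀ i ∈ T, ∀ j ∈ T, i ≠ j → 0 ≤ C i j) → (∀ i ∈ T, ∀ j ∈ T, i ≠ j → C i j ≤ C' i j) →
    0 ≤ pair C T ∧ pair C T ≤ pair C' T := by
  intro n C C'
  refine pair_ind _ ?_ ?_
  · intro _ _
    rw [pair_empty, pair_empty]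
    exact ⟨zero_le_one, le_refl _⟩
  · intro T h ih h1 h2
    rw [pair_eq C T h, pair_eq C' T h]
    have hm := T.min'_mem h
    have key : ∀ j ∈ T.erase (T.min' h),
        0 ≤ C (T.min' h) j * pair C ((T.erase (T.min' h)).erase j) ∧
        C (T.min' h) j * pair C ((T.erase (T.min' h)).erase j) ≤
          C' (T.min' h) j * pair C' ((T.erase (T.min' h)).erase j) := by
      intro j hj
      have hj1 := Finset.mem_of_mem_erase hj
      have hj2 := (Finset.ne_of_mem_erase hj).symm
      have h3 := h1 _ hm j hj1 hj2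
      have h4 := h2 _ hm j hj1 hj2
      obtain ⟨h5, h6⟩ := ih j hj (fun a ha b hb => h1 a (sub_erase ha) b (sub_erase hb))
        (fun a ha b hb => h2 a (sub_erase ha) b (sub_erase hb))
      exact ⟨mul_nonneg h3 h5, mul_le_mul h4 h6 h5 (h3.trans h4)⟩
    exact ⟨Finset.sum_nonneg fun j hj => (key j hj).1, Finset.sum_le_sum fun j hj => (key j hj).2⟩

theorem prod_split {n : ℕ} (u : Fin n → ℝ) {T : Finset (Fin n)} {m j : Fin n} (hm : m ∈ T)
    (hj : j ∈ T.erase m) : ∏ i ∈ T, u i = u m * u j * ∏ i ∈ (T.erase m).erase j, u i := by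
  rw [← Finset.mul_prod_erase T u hm, ← Finset.mul_prod_erase (T.erase m) u hj, mul_assoc]

theorem card_split {n : ℕ} {T : Finset (Fin n)} {m j : Fin n} (hm : m ∈ T)
    (hj : j ∈ T.erase m) : T.card = ((T.erase m).erase j).card + 2 := by
  have h1 := Finset.card_erase_of_mem hm
  have h2 := Finset.card_erase_of_mem hj
  have h3 : 0 < T.card := Finset.card_pos.mpr ⟨m, hm⟩
  have h4 : 0 < (T.erase m).card := Finset.card_pos.mpr ⟨j, hj⟩
  omega

theorem pf_bound : ∀ (n : ℕ) (C : Fin n → Fin n → ℝ) (K : ℝ) (u : Fin n → ℝ)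
    (T : Finset (Fin n)), 0 ≤ K → (∀ i, 0 ≤ u i) → (∀ i ∈ T, ∀ j ∈ T, i ≠ j → 0 ≤ C i j) →
    (∀ i ∈ T, ∀ j ∈ T, i ≠ j → C i j ≤ K * (u i * u j)) →
    pair C T ≤ (T.card.factorial : ℝ) * K ^ (T.card / 2) * ∏ i ∈ T, u i := by
  intro n C K u T hK hu
  revert T
  refine pair_ind _ ?_ ?_
  · intro _ _
    rw [pair_empty]
    simp
  · intro T h ih h1 h2
    have hm := T.min'_mem h
    rw [pair_eq C T h]
    have key : ∀ j ∈ T.erase (T.min' h),
        C (T.min' h) j * pair C ((T.erase (T.min' h)).erase j) ≤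
          ((T.card - 2).factorial : ℝ) * K ^ (T.card / 2) * ∏ i ∈ T, u i := by
      intro j hj
      have hj1 := Finset.mem_of_mem_erase hj
      have hj2 := (Finset.ne_of_mem_erase hj).symm
      have h3 := h1 _ hm j hj1 hj2
      have h4 := h2 _ hm j hj1 hj2
      have h1' : ∀ a ∈ (T.erase (T.min' h)).erase j, ∀ b ∈ (T.erase (T.min' h)).erase j,
          a ≠ b → 0 ≤ C a b := fun a ha b hb => h1 a (sub_erase ha) b (sub_erase hb)
      have h5 := ih j hj h1' (fun a ha b hb => h2 a (sub_erase ha) b (sub_erase hb))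
      have h6 := (pf_mono n C C _ h1' (fun a _ b _ _ => le_refl _)).1
      have hc := card_split hm hj
      have h7 := mul_le_mul h4 h5 h6 (h3.trans h4)
      refine h7.trans (le_of_eq ?_)
      rw [prod_split u hm hj]
      have e1 : T.card - 2 = ((T.erase (T.min' h)).erase j).card := by omega
      have e2 : T.card / 2 = ((T.erase (T.min' h)).erase j).card / 2 + 1 := by omega
      rw [e1, e2, pow_succ]
      ring
    refine (Finset.sum_le_card_nsmul _ _ _ key).trans ?_
    rw [nsmul_eq_mul]
    have hP : 0 ≤ ∏ i ∈ T, u i := Finset.prod_nonneg fun i _ => hu i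
    have hKp : 0 ≤ K ^ (T.card / 2) := pow_nonneg hK _
    have hc : (T.erase (T.min' h)).card = T.card - 1 := Finset.card_erase_of_mem hm
    have hT : 0 < T.card := Finset.card_pos.mpr h
    have hf : ((T.card - 1) * (T.card - 2).factorial : ℕ) ≤ T.card.factorial := by
      rcases Nat.lt_or_ge T.card 2 with h3 | h3
      · have : T.card - 1 = 0 := by omega
        rw [this]
        simp
      · have e1 : (T.card - 1) * (T.card - 2).factorial = (T.card - 1).factorial := by
          have : T.card - 1 = (T.card - 2) + 1 := by omega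
          rw [this, Nat.factorial_succ]
        rw [e1]
        exact Nat.factorial_le (by omega)
    have hf' : ((T.card - 1 : ℕ) : ℝ) * ((T.card - 2).factorial : ℝ) ≤
        (T.card.factorial : ℝ) := by exact_mod_cast hf
    rw [hc]
    calc ((T.card - 1 : ℕ) : ℝ) * (((T.card - 2).factorial : ℝ) * K ^ (T.card / 2) *
          ∏ i ∈ T, u i)
        = (((T.card - 1 : ℕ) : ℝ) * ((T.card - 2).factorial : ℝ)) * (K ^ (T.card / 2) *
          ∏ i ∈ T, u i) := by ring
      _ ≤ (T.card.factorial : ℝ) * (K ^ (T.card / 2) * ∏ i ∈ T, u i) :=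
          mul_le_mul_of_nonneg_right hf' (mul_nonneg hKp hP)
      _ = _ := by ring

theorem pf_const : ∀ (n : ℕ) (v : ℝ) (T : Finset (Fin n)) (k : ℕ), T.card = 2 * k →
    pair (fun _ _ => v) T * (2 ^ k * (k.factorial : ℝ)) = ((2 * k).factorial : ℝ) * v ^ k := by
  intro n v T k
  induction k generalizing T with
  | zero =>
    intro hT
    have : T = ∅ := Finset.card_eq_zero.mp (by omega)
    rw [this, pair_empty]
    simp
  | succ k ih =>
    intro hT
    have h : T.Nonempty := Finset.card_pos.mp (by omega)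
    have hm := T.min'_mem h
    rw [pair_eq _ T h, Finset.sum_mul]
    have key : ∀ j ∈ T.erase (T.min' h),
        v * pair (fun _ _ => v) ((T.erase (T.min' h)).erase j) *
          (2 ^ (k + 1) * ((k + 1).factorial : ℝ)) =
        ((2 * k).factorial : ℝ) * v ^ (k + 1) * (2 * (k + 1)) := by
      intro j hj
      have hc := card_split hm hj
      have h1 := ih ((T.erase (T.min' h)).erase j) (by omega)
      rw [Nat.factorial_succ, pow_succ, pow_succ]
      push_cast
      calc v * pair (fun _ _ => v) ((T.erase (T.min' h)).erase j) *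
            (2 ^ k * 2 * ((k + 1) * (k.factorial : ℝ)))
          = (pair (fun _ _ => v) ((T.erase (T.min' h)).erase j) *
            (2 ^ k * (k.factorial : ℝ))) * (v * (2 * (k + 1))) := by ring
        _ = _ := by rw [h1]; ring
    rw [Finset.sum_congr rfl key, Finset.sum_const, nsmul_eq_mul,
      Finset.card_erase_of_mem hm, hT]
    have e1 : 2 * (k + 1) - 1 = 2 * k + 1 := by omega
    have e2 : 2 * (k + 1) = 2 * k + 1 + 1 := by ring
    rw [e1, e2, Nat.factorial_succ, Nat.factorial_succ]
    push_cast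
    ring

theorem pf_scale : ∀ (n : ℕ) (C : Fin n → Fin n → ℝ) (u : Fin n → ℝ) (T : Finset (Fin n))
    (k : ℕ), T.card = 2 * k →
    pair (fun i j => C i j * (u i * u j)) T = pair C T * ∏ i ∈ T, u i := by
  intro n C u T k
  induction k generalizing T with
  | zero =>
    intro hT
    have : T = ∅ := Finset.card_eq_zero.mp (by omega)
    rw [this, pair_empty, pair_empty]
    simp
  | succ k ih =>
    intro hT
    have h : T.Nonempty := Finset.card_pos.mp (by omega)
    have hm := T.min'_mem h
    rw [pair_eq _ T h, pair_eq _ T h, Finset.sum_mul]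
    refine Finset.sum_congr rfl fun j hj => ?_
    have hc := card_split hm hj
    rw [ih ((T.erase (T.min' h)).erase j) (by omega), prod_split u hm hj]
    ring

theorem pf_cont : ∀ (n : ℕ) (T : Finset (Fin n)),
    Continuous (fun C : Fin n → Fin n → ℝ => pair C T) := by
  intro n
  refine pair_ind _ ?_ ?_
  · have : (fun C : Fin n → Fin n → ℝ => pair C ∅) = fun _ => 1 := by
      funext C
      exact pair_empty C
    rw [this]
    exact continuous_const
  · intro T h ih
    have : (fun C : Fin n → Fin n → ℝ => pair C T) = fun C => ∑ j ∈ T.erase (T.min' h),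
        C (T.min' h) j * pair C ((T.erase (T.min' h)).erase j) := by
      funext C
      exact pair_eq C T h
    rw [this]
    refine continuous_finsetSum _ fun j hj => ?_
    exact (continuous_apply_apply (T.min' h) j).mul (ih j hj)

theorem pf_odd : ∀ (n : ℕ) (C : Fin n → Fin n → ℝ) (T : Finset (Fin n)), Odd T.card →
    pair C T = 0 := by
  intro n C
  refine pair_ind _ ?_ ?_
  · intro h
    simp at h
  · intro T h ih hT
    rw [pair_eq C T h]
    refine Finset.sum_eq_zero fun j hj => ?_
    have hc := card_split (T.min'_mem h) hj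
    rw [ih j hj, mul_zero]
    rw [hc, Nat.odd_add] at hT
    exact hT.mpr (by decide)

theorem pf_PRB : T_PRB where
  mono := pf_mono
  bound := pf_bound
  const := pf_const
  scale := pf_scale
  cont := pf_cont
  odd := pf_odd

end Pool.Agent.H47.LD
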